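import Pool.Agent.Lib.MP_41caf5_nt.FourthPowers

/-!
MP_41caf5_nt, Q1: `-16` is not a perfect power and is not the largest negative primitive root
modulo any prime; the same holds for `-d ^ 4` whenever `d ≥ 2` is not an `m`-th power with `m > 1`
odd.
-/

namespace Pool.Agent.Results.MP_41caf5_nt.Q1Disproof

open Pool.Agent.MP41caf5

/-- The negated form of Q1: there is an integer `a < 0` that is not a perfect power and is the
largest negative primitive root modulo only finitely many primes. Indeed, for every `d ≥ 2`, if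
`-d ^ 4` is a primitive root modulo a prime `p`, then so is `-d ^ 2`, so `-d ^ 4` is the largest
negative primitive root modulo no prime; it is a perfect power only if `d` is an `m`-th power
with `m > 1` odd. There are infinitely many such counterexamples, the first one is `-16`. -/
theorem result :
    (∃ a : ℤ, a < 0 ∧ ¬ IsPerfectPower a ∧
      {p : ℕ | p.Prime ∧ IsLargestNegPrimRoot a p}.Finite) ∧
    (∀ d p : ℕ, 2 ≤ d → p.Prime → IsPrimRootMod (-(d : ℤ) ^ 4) p →
      IsPrimRootMod (-(d : ℤ) ^ 2) p) ∧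
    (∀ d : ℕ, 2 ≤ d → {p : ℕ | p.Prime ∧ IsLargestNegPrimRoot (-(d : ℤ) ^ 4) p} = ∅) ∧
    (∀ d : ℕ, 2 ≤ d →
      (IsPerfectPower (-(d : ℤ) ^ 4) ↔ ∃ e m : ℕ, 1 < m ∧ Odd m ∧ d = e ^ m)) ∧
    {a : ℤ | a < 0 ∧ ¬ IsPerfectPower a ∧
      {p : ℕ | p.Prime ∧ IsLargestNegPrimRoot a p} = ∅}.Infinite ∧
    (¬ IsPerfectPower (-16) ∧ {p : ℕ | p.Prime ∧ IsLargestNegPrimRoot (-16) p} = ∅) := by
  have key : ∀ q : ℕ, q.Prime → -(q : ℤ) ^ 4 < 0 ∧ ¬ IsPerfectPower (-(q : ℤ) ^ 4) ∧
      {p : ℕ | p.Prime ∧ IsLargestNegPrimRoot (-(q : ℤ) ^ 4) p} = ∅ := by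
    intro q hq
    refine ⟨?_, ?_, primesFor_neg_fourth hq.two_le⟩
    · have : (0 : ℤ) < (q : ℤ) ^ 4 := by
        have := hq.pos
        positivity
      linarith
    · rw [perfectPower_neg_fourth hq.two_le]
      rintro ⟨e, m, hm, -, he⟩
      exact (Nat.Prime.not_prime_pow hm) (he ▸ hq)
  have h16 : (-16 : ℤ) = -((2 : ℕ) : ℤ) ^ 4 := by norm_num
  refine ⟨⟨-16, by norm_num, ?_, ?_⟩, fun d p _ hp h => primRoot_neg_sq hp h,
    fun d hd => primesFor_neg_fourth hd, fun d hd => perfectPower_neg_fourth hd, ?_, ?_, ?_⟩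
  · rw [h16]
    exact (key 2 Nat.prime_two).2.1
  · rw [h16, (key 2 Nat.prime_two).2.2]
    exact Set.finite_empty
  · have hinj : Set.InjOn (fun q : ℕ => -(q : ℤ) ^ 4) {q : ℕ | q.Prime} := by
      intro x _ y _ hxy
      have h1 : (x : ℤ) ^ 4 = (y : ℤ) ^ 4 := by
        have := hxy
        simp only at this
        linarith
      have h2 : x ^ 4 = y ^ 4 := by exact_mod_cast h1
      exact Nat.pow_left_injective (by norm_num : 4 ≠ 0) h2
    exact (Nat.infinite_setOfPred_prime.image hinj).mono (by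
      rintro a ⟨q, hq, rfl⟩
      exact key q hq)
  · rw [h16]
    exact (key 2 Nat.prime_two).2.1
  · rw [h16]
    exact (key 2 Nat.prime_two).2.2

end Pool.Agent.Results.MP_41caf5_nt.Q1Disproof
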