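import Pool.Agent.Lib.MP_41caf5_nt.Final

/-!
MP_41caf5_nt, Q2: the inequality `p_{n+1}(a) < p_n(a)^(1+1/n)` fails for `a = -3` at the
consecutive terms `51459203` and `51460433`.
-/

namespace Pool.Agent.Results.MP_41caf5_nt.Q2Disproof

open Pool.Agent.MP41caf5

/-- The negated form of Q2: there are an integer `a < 0` that is not a perfect power and an
`n ≥ 1` with `(a, n) ≠ (-2, 13)` such that `p_{n+1}(a) ≥ p_n(a)^(1+1/n)`. Both terms exist, and
the counterexample is explicit: `a = -3`, `p_n(a) = 51459203`, `p_{n+1}(a) = 51460433`, with an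
index `n ≥ 743425`. -/
theorem result : ∃ (a : ℤ) (n x y : ℕ), a < 0 ∧ ¬ IsPerfectPower a ∧ 1 ≤ n ∧
    (a, n) ≠ (-2, 13) ∧ IsTerm a n x ∧ IsTerm a (n + 1) y ∧
    (x : ℝ) ^ (1 + 1 / (n : ℝ)) ≤ (y : ℝ) ∧
    a = -3 ∧ 743425 ≤ n ∧ x = 51459203 ∧ y = 51460433 := by
  have hn : 743424 + 1 ≤ cnt (51459203 + 1) := cnt_ge memP r726
  refine ⟨-3, cnt (51459203 + 1), 51459203, 51460433, by norm_num, neg_three_not_power,
    le_trans (by norm_num) hn, ?_, term_first memP,
    term_next memQ (by norm_num) (fun p h1 h2 => gap_all h1 h2), ?_, rfl, hn, rfl, rfl⟩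
  · intro h
    have h1 := congrArg Prod.fst h
    norm_num at h1
  · exact real_ineq (by norm_num) (lt_of_lt_of_le (by norm_num) hn)
      (pow_step pow_base (by norm_num) (le_trans (by norm_num) hn))

end Pool.Agent.Results.MP_41caf5_nt.Q2Disproof
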